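import Pool.Agent.H626.LE.Compare

/-!
The final count.
-/

set_option autoImplicit false

open Finset Matrix

namespace Pool.Agent.H626.LE

/-- a connected graph containing a clique `W` has at least `C(|W|,2) + (n - |W|)` edges -/
theorem edges_ge {n : ℕ} (G : SimpleGraph (Fin n)) (hG : G.Connected) (W : Finset (Fin n))
    (hW : W.Nonempty) (hcl : ∀ u ∈ W, ∀ v ∈ W, u ≠ v → G.Adj u v) :
    (W.card : ℝ) * (W.card - 1) + 2 * ((n : ℝ) - W.card) ≤ ∑ i, dg G i := by
  classical
  obtain ⟨r, hr⟩ := hW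
  choose f hf using fun v (h : v ≠ r) => Pool.Agent.Q260.TE.TaskParent.step G hG r v h
  obtain ⟨q, hq⟩ : ∃ q : Fin n → Fin n, q = fun v => if h : v ≠ r then f v h else r := ⟨_, rfl⟩
  have hq1 : ∀ v ∈ Wᶜ, G.Adj v (q v) ∧ G.dist (q v) r < G.dist v r := by
    intro v hv
    have hv' : v ≠ r := fun h => (Finset.mem_compl.1 hv) (h ▸ hr)
    rw [hq]; simp only [dif_pos hv']
    exact hf v hv'
  set A1 := Wᶜ.image (fun v => (v, q v)) with hA1
  set A2 := Wᶜ.image (fun v => (q v, v)) with hA2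
  set A3 := W.offDiag with hA3
  set A := (univ : Finset (Fin n × Fin n)).filter (fun x => G.Adj x.1 x.2) with hA
  have c1 : A1.card = Wᶜ.card := Finset.card_image_of_injective _ fun a b hab => (Prod.mk.inj hab).1
  have c2 : A2.card = Wᶜ.card := Finset.card_image_of_injective _ fun a b hab => (Prod.mk.inj hab).2
  have c3 : A3.card = W.card * W.card - W.card := Finset.offDiag_card W
  have s1 : A1 ⊆ A := by
    intro x hx
    obtain ⟨v, hv, rfl⟩ := Finset.mem_image.1 hx
    exact Finset.mem_filter.2 ⟨Finset.mem_univ _, (hq1 v hv).1⟩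
  have s2 : A2 ⊆ A := by
    intro x hx
    obtain ⟨v, hv, rfl⟩ := Finset.mem_image.1 hx
    exact Finset.mem_filter.2 ⟨Finset.mem_univ _, (hq1 v hv).1.symm⟩
  have s3 : A3 ⊆ A := by
    intro x hx
    obtain ⟨h1, h2, h3⟩ := Finset.mem_offDiag.1 hx
    exact Finset.mem_filter.2 ⟨Finset.mem_univ _, hcl _ h1 _ h2 h3⟩
  have d12 : Disjoint A1 A2 := by
    rw [Finset.disjoint_left]
    intro x hx hy
    obtain ⟨v, hv, rfl⟩ := Finset.mem_image.1 hx
    obtain ⟨w, hw, hvw⟩ := Finset.mem_image.1 hy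
    obtain ⟨e1, e2⟩ := Prod.mk.inj hvw
    have h1 := (hq1 v hv).2
    have h2 := (hq1 w hw).2
    rw [e1] at h2
    rw [← e2] at h1
    omega
  have d13 : Disjoint (A1 ∪ A2) A3 := by
    rw [Finset.disjoint_left]
    intro x hx hy
    obtain ⟨h1, h2, h3⟩ := Finset.mem_offDiag.1 hy
    rcases Finset.mem_union.1 hx with hx | hx
    · obtain ⟨v, hv, rfl⟩ := Finset.mem_image.1 hx
      exact (Finset.mem_compl.1 hv) h1
    · obtain ⟨v, hv, rfl⟩ := Finset.mem_image.1 hx
      exact (Finset.mem_compl.1 hv) h2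
  have hcard : 2 * Wᶜ.card + (W.card * W.card - W.card) ≤ A.card := by
    rw [← c3, two_mul]
    nth_rewrite 1 [← c1]
    rw [← c2, ← Finset.card_union_of_disjoint d12, ← Finset.card_union_of_disjoint d13]
    exact Finset.card_le_card (Finset.union_subset (Finset.union_subset s1 s2) s3)
  have hA' : (A.card : ℝ) = ∑ i, dg G i := by
    rw [hA, Finset.card_filter, ← Finset.univ_product_univ, Finset.sum_product]
    push_cast
    refine Finset.sum_congr rfl fun i _ => Finset.sum_congr rfl fun j _ => ?_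
    by_cases h : G.Adj i j
    · rw [if_pos h, ad_of_adj h]
    · rw [if_neg h, ad_of_not h]
  rw [← hA']
  have h1 : W.card ≤ W.card * W.card := Nat.le_mul_self _
  have h2 : Wᶜ.card = n - W.card := by rw [Finset.card_compl, Fintype.card_fin]
  have h3 : W.card ≤ n := by
    have := Finset.card_le_univ W
    rwa [Fintype.card_fin] at this
  have h4 : ((2 * Wᶜ.card + (W.card * W.card - W.card) : ℕ) : ℝ) ≤ A.card := by
    exact_mod_cast hcard
  rw [h2] at h4
  push_cast [Nat.cast_sub h1, Nat.cast_sub h3] at h4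
  linarith

theorem dg_ge_one {n : ℕ} (hn : 2 ≤ n) (G : SimpleGraph (Fin n)) (hG : G.Connected)
    (u : Fin n) : 1 ≤ dg G u := by
  have : Nontrivial (Fin n) := Fin.nontrivial_iff_two_le.2 hn
  obtain ⟨v, hv⟩ := hG.preconnected.exists_adj_of_nontrivial u
  unfold dg
  rw [← ad_of_adj hv]
  exact Finset.single_le_sum (f := fun j => ad G u j) (fun j _ => ad_nonneg G u j)
    (Finset.mem_univ v)

section

variable {n : ℕ} {G : SimpleGraph (Fin n)} {P : Matrix (Fin n) (Fin n) ℝ} {al s m p : ℝ}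

/-- `E u` -/
theorem Sys.e_eq (_h : Sys G P al s m p) (u : Fin n) :
    ∑ j, ad G u j * (P u u - P u j) = dg G u * P u u - ∑ j, ad G u j * P u j := by
  simp only [mul_sub, Finset.sum_sub_distrib]
  unfold dg
  rw [Finset.sum_mul]

theorem Sys.e_nonneg (h : Sys G P al s m p) (u : Fin n) :
    0 ≤ dg G u * P u u - ∑ j, ad G u j * P u j := by
  rw [← h.e_eq, ← h.hdiag]
  exact energy_nonneg G (fun i => P u i)

theorem Sys.e_sum (h : Sys G P al s m p) :
    ∑ u, (dg G u * P u u - ∑ j, ad G u j * P u j) = s := by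
  rw [← h.hs]
  exact Finset.sum_congr rfl fun u _ => (h.e_eq u).symm

theorem Sys.c_sq (h : Sys G P al s m p) (u : Fin n) :
    (∑ j, ad G u j * P u j) ^ 2 ≤ dg G u * (P u u * (1 - P u u)) := by
  rw [← h.sq_erase u]
  have e1 : ∑ j, ad G u j * P u j = ∑ j ∈ univ.erase u, ad G u j * P u j := by
    rw [← Finset.add_sum_erase _ _ (Finset.mem_univ u), ad_self, zero_mul, zero_add]
  have e2 : dg G u = ∑ j ∈ univ.erase u, ad G u j ^ 2 := by
    unfold dg
    rw [← Finset.add_sum_erase _ _ (Finset.mem_univ u), ad_self, zero_add]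
    refine Finset.sum_congr rfl fun j _ => ?_
    unfold ad; split_ifs <;> norm_num
  rw [e1, e2]
  exact Finset.sum_mul_sq_le_sq_mul_sq _ _ _

/-- a clique forces energy -/
theorem Sys.clique (h : Sys G P al s m p) (W : Finset (Fin n))
    (hcl : ∀ u ∈ W, ∀ v ∈ W, u ≠ v → G.Adj u v) :
    (W.card : ℝ) * (p - (n - W.card) - 1) ≤ s := by
  classical
  set B := ∑ i ∈ W, ∑ j ∈ W, P i j with hB
  -- `B ≤ |W|`
  have hBB : ∑ l, (∑ i ∈ W, P i l) ^ 2 = B := by
    have : ∀ l, (∑ i ∈ W, P i l) ^ 2 = ∑ i ∈ W, ∑ j ∈ W, P i l * P l j := by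
      intro l
      rw [pow_two, Finset.sum_mul_sum]
      exact Finset.sum_congr rfl fun i _ => Finset.sum_congr rfl fun j _ => by rw [h.symm j l]
    simp only [this]
    rw [Finset.sum_comm, hB]
    refine Finset.sum_congr rfl fun i _ => ?_
    rw [Finset.sum_comm]
    exact Finset.sum_congr rfl fun j _ => h.mul i j
  have hB0 : 0 ≤ B := by rw [← hBB]; exact Finset.sum_nonneg fun l _ => sq_nonneg _
  have hBle : B ≤ W.card := by
    have h1 : B = ∑ l ∈ W, ∑ i ∈ W, P i l := by rw [hB, Finset.sum_comm]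
    have h2 : (∑ l ∈ W, ∑ i ∈ W, P i l) ^ 2 ≤ W.card * ∑ l ∈ W, (∑ i ∈ W, P i l) ^ 2 :=
      sq_sum_le_card_mul_sum_sq
    have h3 : ∑ l ∈ W, (∑ i ∈ W, P i l) ^ 2 ≤ ∑ l, (∑ i ∈ W, P i l) ^ 2 :=
      Finset.sum_le_sum_of_subset_of_nonneg (Finset.subset_univ _) fun _ _ _ => sq_nonneg _
    rw [← h1] at h2
    rw [hBB] at h3
    have h4 : (0 : ℝ) ≤ W.card := Nat.cast_nonneg _
    by_contra hc
    push Not at hc
    have h5 : B ^ 2 ≤ W.card * B := h2.trans (mul_le_mul_of_nonneg_left h3 h4)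
    nlinarith
  -- the diagonal
  have hdiag : p - (n - W.card) ≤ ∑ i ∈ W, P i i := by
    have h1 : ∑ i, P i i = p := by rw [← h.tr, Matrix.trace]; rfl
    rw [← Finset.sum_add_sum_compl W] at h1
    have h2 : ∑ i ∈ Wᶜ, P i i ≤ ∑ _i ∈ Wᶜ, (1 : ℝ) :=
      Finset.sum_le_sum fun i _ => h.diag_le_one i
    rw [Finset.sum_const, nsmul_eq_mul, mul_one, Finset.card_compl, Fintype.card_fin,
      Nat.cast_sub (by have := Finset.card_le_univ W; rwa [Fintype.card_fin] at this)] at h2
    linarith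
  have h2s : ∑ i, ∑ j, ad G i j * (P i i + P j j - 2 * P i j) = 2 * s := by
    have e1 : ∑ i, ∑ j, ad G i j * (P j j - P i j) = s := by
      rw [← h.hs, Finset.sum_comm]
      exact Finset.sum_congr rfl fun i _ => Finset.sum_congr rfl fun j _ => by
        rw [ad_symm, h.symm j i]
    have e2 : 2 * s = s + s := by ring
    rw [e2]
    nth_rewrite 1 [← h.hs]
    rw [← e1, ← Finset.sum_add_distrib]
    refine Finset.sum_congr rfl fun i _ => ?_
    rw [← Finset.sum_add_distrib]
    exact Finset.sum_congr rfl fun j _ => by ring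
  have h3 : ∑ i ∈ W, ∑ j ∈ W, (P i i + P j j - 2 * P i j) ≤
      ∑ i, ∑ j, ad G i j * (P i i + P j j - 2 * P i j) := by
    calc ∑ i ∈ W, ∑ j ∈ W, (P i i + P j j - 2 * P i j)
        = ∑ i ∈ W, ∑ j ∈ W, ad G i j * (P i i + P j j - 2 * P i j) := by
          refine Finset.sum_congr rfl fun i hi => Finset.sum_congr rfl fun j hj => ?_
          by_cases hij : i = j
          · subst hij; ring
          · rw [ad_of_adj (hcl i hi j hj hij), one_mul]
      _ ≤ ∑ i ∈ W, ∑ j, ad G i j * (P i i + P j j - 2 * P i j) := by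
          refine Finset.sum_le_sum fun i _ => ?_
          exact Finset.sum_le_sum_of_subset_of_nonneg (Finset.subset_univ _) fun j _ _ =>
            mul_nonneg (ad_nonneg _ _ _) (h.w_nonneg i j)
      _ ≤ _ := by
          exact Finset.sum_le_sum_of_subset_of_nonneg (Finset.subset_univ _) fun i _ _ =>
            Finset.sum_nonneg fun j _ => mul_nonneg (ad_nonneg _ _ _) (h.w_nonneg i j)
  have h4 : ∑ i ∈ W, ∑ j ∈ W, (P i i + P j j - 2 * P i j) =
      2 * (W.card * ∑ i ∈ W, P i i) - 2 * B := by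
    simp only [Finset.sum_sub_distrib, Finset.sum_add_distrib, ← Finset.mul_sum,
      Finset.sum_const, nsmul_eq_mul]
    rw [hB]; ring
  rw [h2s, h4] at h3
  have h5 : (0 : ℝ) ≤ W.card := Nat.cast_nonneg _
  nlinarith [mul_le_mul_of_nonneg_left hdiag h5]

end

end Pool.Agent.H626.LE
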