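import Pool.Graph.R_seed8.Q260.TE.Pine
import Pool.Graph.R_seed8.Q260.TE.TaskParent
import Pool.Graph.R_seed8.Q260.TE.TaskPOne
import Pool.Graph.R_seed8.Q260.TE.TaskPTwo
import Pool.Graph.R_seed8.Q260.TE.TaskPMul
import Pool.Graph.R_seed8.Q260.TE.TaskLapOne
import Pool.Graph.R_seed8.Q260.TE.TaskLapTwo
import Pool.Graph.R_seed8.Q260.TE.TaskDeg

/-!
Laplacian energy of connected graphs: test projections and comparison with supergraphs.
-/

set_option autoImplicit false

open Finset Matrix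

namespace Pool.Agent.H626.LE

open Pool.Agent.Q260.TE (lapEnergy)

/-- spectral projection, commuting with the matrix -/
theorem spec (n : ℕ) (A : Matrix (Fin n) (Fin n) ℝ) (hA : A.IsHermitian)
    (t : Finset (Fin n)) : ∃ P : Matrix (Fin n) (Fin n) ℝ, Pᵀ = P ∧ P * P = P ∧
      P.trace = (t.card : ℝ) ∧ (P * A).trace = ∑ i ∈ t, hA.eigenvalues i ∧ P * A = A * P := by
  classical
  obtain ⟨U, hU⟩ : ∃ U : Matrix (Fin n) (Fin n) ℝ,
      U = (hA.eigenvectorUnitary : Matrix (Fin n) (Fin n) ℝ) := ⟨_, rfl⟩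
  have h1 : Uᵀ * U = 1 := by
    have h := Unitary.coe_star_mul_self hA.eigenvectorUnitary
    rw [hU, ← conjTranspose_eq_transpose_of_trivial]
    exact h
  have hspec : A = U * diagonal hA.eigenvalues * Uᵀ := by
    have h := hA.spectral_theorem
    rw [Unitary.conjStarAlgAut_apply] at h
    rw [hU, ← conjTranspose_eq_transpose_of_trivial]
    exact h
  have e1 : U * diagonal (fun i => if i ∈ t then (1 : ℝ) else 0) * Uᵀ * A =
        U * (diagonal (fun i => if i ∈ t then (1 : ℝ) else 0) * (Uᵀ * U) *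
          diagonal hA.eigenvalues * Uᵀ) := by
    conv_lhs => rw [hspec]
    simp only [Matrix.mul_assoc]
  have e2 : A * (U * diagonal (fun i => if i ∈ t then (1 : ℝ) else 0) * Uᵀ) =
        U * (diagonal hA.eigenvalues * (Uᵀ * U) *
          diagonal (fun i => if i ∈ t then (1 : ℝ) else 0) * Uᵀ) := by
    conv_lhs => rw [hspec]
    simp only [Matrix.mul_assoc]
  refine ⟨U * diagonal (fun i => if i ∈ t then (1 : ℝ) else 0) * Uᵀ, ?_, ?_, ?_, ?_, ?_⟩
  · rw [transpose_mul, transpose_mul, transpose_transpose, diagonal_transpose, Matrix.mul_assoc]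
  · have e : U * diagonal (fun i => if i ∈ t then (1 : ℝ) else 0) * Uᵀ *
        (U * diagonal (fun i => if i ∈ t then (1 : ℝ) else 0) * Uᵀ) =
        U * (diagonal (fun i => if i ∈ t then (1 : ℝ) else 0) * (Uᵀ * U) *
          diagonal (fun i => if i ∈ t then (1 : ℝ) else 0)) * Uᵀ := by
      simp only [Matrix.mul_assoc]
    rw [e, h1, Matrix.mul_one, diagonal_mul_diagonal]
    congr 3
    funext i
    by_cases hi : i ∈ t <;> simp [hi]
  · rw [Matrix.trace_mul_comm, ← Matrix.mul_assoc, h1, Matrix.one_mul, trace_diagonal]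
    simp
  · rw [e1, h1, Matrix.mul_one, diagonal_mul_diagonal, Matrix.trace_mul_comm, Matrix.mul_assoc, h1,
      Matrix.mul_one, trace_diagonal]
    simp
  · rw [e1, e2, h1, Matrix.mul_one, Matrix.mul_one, diagonal_mul_diagonal, diagonal_mul_diagonal]
    congr 3
    funext i
    ring_nf

/-- every symmetric projection gives a lower bound for the energy -/
theorem kf {n : ℕ} (hn : 0 < n) (G : SimpleGraph (Fin n)) [DecidableRel G.Adj]
    (Q : Matrix (Fin n) (Fin n) ℝ) (h1 : Qᵀ = Q) (h2 : Q * Q = Q) :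
    2 * (G.edgeFinset.card : ℝ) / n * Q.trace - (Q * G.lapMatrix ℝ).trace ≤ lapEnergy G / 2 := by
  have hL : (G.lapMatrix ℝ).IsHermitian := G.isHermitian_lapMatrix (R := ℝ)
  obtain ⟨q1, q2, q3, q4⟩ := Pool.Agent.Q260.TE.compl_proj (A := G.lapMatrix ℝ) h1 h2
  have h := Pool.Agent.Helper554.LE.energy_lower (P := 1 - Q) hL q1 q2
    (2 * (G.edgeFinset.card : ℝ) / n)
  rw [← Pool.Agent.Q260.TE.lapEnergy_eq' G hL, q3, q4, Pool.Agent.Helper554.LE.trace_lap] at h
  have hn' : (n : ℝ) ≠ 0 := by positivity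
  have e : 2 * (G.edgeFinset.card : ℝ) / n * n = 2 * (G.edgeFinset.card : ℝ) := by field_simp
  nlinarith

open Classical in
/-- the adjacency relation as a real function -/
noncomputable def ad {n : ℕ} (G : SimpleGraph (Fin n)) (i j : Fin n) : ℝ :=
  if G.Adj i j then 1 else 0

theorem ad_symm {n : ℕ} (G : SimpleGraph (Fin n)) (i j : Fin n) : ad G i j = ad G j i := by
  unfold ad
  by_cases h : G.Adj i j
  · rw [if_pos h, if_pos h.symm]
  · rw [if_neg h, if_neg fun h' => h h'.symm]

theorem ad_self {n : ℕ} (G : SimpleGraph (Fin n)) (i : Fin n) : ad G i i = 0 := by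
  unfold ad; simp

theorem ad_nonneg {n : ℕ} (G : SimpleGraph (Fin n)) (i j : Fin n) : 0 ≤ ad G i j := by
  unfold ad; split_ifs <;> norm_num

theorem ad_le_one {n : ℕ} (G : SimpleGraph (Fin n)) (i j : Fin n) : ad G i j ≤ 1 := by
  unfold ad; split_ifs <;> norm_num

theorem ad_of_adj {n : ℕ} {G : SimpleGraph (Fin n)} {i j : Fin n} (h : G.Adj i j) :
    ad G i j = 1 := by
  unfold ad; simp [h]

theorem ad_of_not {n : ℕ} {G : SimpleGraph (Fin n)} {i j : Fin n} (h : ¬ G.Adj i j) :
    ad G i j = 0 := by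
  unfold ad; simp [h]

/-- degree -/
noncomputable def dg {n : ℕ} (G : SimpleGraph (Fin n)) (i : Fin n) : ℝ := ∑ j, ad G i j

theorem dg_eq {n : ℕ} (G : SimpleGraph (Fin n)) [DecidableRel G.Adj] (i : Fin n) :
    dg G i = G.degree i := by
  classical
  have h : dg G i = ∑ j, if G.Adj i j then (1 : ℝ) else 0 := by
    unfold dg
    refine Finset.sum_congr rfl fun j _ => ?_
    by_cases h : G.Adj i j
    · rw [if_pos h, ad_of_adj h]
    · rw [if_neg h, ad_of_not h]
  rw [h, Finset.sum_boole, ← G.card_neighborFinset_eq_degree]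
  congr 2
  ext j
  simp

theorem sum_dg {n : ℕ} (G : SimpleGraph (Fin n)) [DecidableRel G.Adj] :
    ∑ i, dg G i = 2 * (G.edgeFinset.card : ℝ) := by
  have h := SimpleGraph.sum_degrees_eq_twice_card_edges G
  have h2 : ((∑ v, G.degree v : ℕ) : ℝ) = ((2 * G.edgeFinset.card : ℕ) : ℝ) := by rw [h]
  push_cast at h2
  rw [← h2]
  exact Finset.sum_congr rfl fun i _ => dg_eq G i

theorem lap_apply {n : ℕ} (G : SimpleGraph (Fin n)) [DecidableRel G.Adj] (i j : Fin n) :
    G.lapMatrix ℝ i j = (if i = j then dg G i else 0) - ad G i j := by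
  simp only [SimpleGraph.lapMatrix, Matrix.sub_apply, SimpleGraph.degMatrix,
    Matrix.diagonal_apply, SimpleGraph.adjMatrix_apply, dg_eq]
  congr 1
  by_cases h : G.Adj i j
  · rw [if_pos h, ad_of_adj h]
  · rw [if_neg h, ad_of_not h]

/-- diagonal entries of `P L` -/
theorem mul_lap_diag {n : ℕ} (G : SimpleGraph (Fin n)) [DecidableRel G.Adj]
    (P : Matrix (Fin n) (Fin n) ℝ) (u : Fin n) :
    (P * G.lapMatrix ℝ) u u = ∑ j, ad G u j * (P u u - P u j) := by
  rw [Matrix.mul_apply]
  have h : ∀ j, P u j * G.lapMatrix ℝ j u =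
      (if j = u then P u u * dg G u else 0) - ad G u j * P u j := by
    intro j
    rw [lap_apply, ad_symm G j u]
    by_cases hj : j = u
    · subst hj; simp; ring
    · simp [hj]; ring
  rw [Finset.sum_congr rfl fun j _ => h j, Finset.sum_sub_distrib]
  simp only [Finset.sum_ite_eq', Finset.mem_univ, if_true, mul_sub, Finset.sum_sub_distrib]
  unfold dg
  rw [Finset.mul_sum]
  congr 1
  exact Finset.sum_congr rfl fun j _ => mul_comm _ _

theorem trace_mul_lap {n : ℕ} (G : SimpleGraph (Fin n)) [DecidableRel G.Adj]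
    (P : Matrix (Fin n) (Fin n) ℝ) :
    (P * G.lapMatrix ℝ).trace = ∑ i, ∑ j, ad G i j * (P i i - P i j) := by
  rw [Matrix.trace]
  exact Finset.sum_congr rfl fun i _ => mul_lap_diag G P i

/-- `(P L P) u u` as an energy -/
theorem plp_diag {n : ℕ} (G : SimpleGraph (Fin n)) [DecidableRel G.Adj]
    (P : Matrix (Fin n) (Fin n) ℝ) (hP : Pᵀ = P) (u : Fin n) :
    (P * G.lapMatrix ℝ * P) u u = ∑ i, ∑ j, ad G i j * (P u i ^ 2 - P u i * P u j) := by
  have hs : ∀ i j, P i j = P j i := fun i j => by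
    have := congrFun (congrFun hP i) j
    rw [Matrix.transpose_apply] at this
    exact this.symm
  rw [Matrix.mul_apply]
  have h : ∀ i, (P * G.lapMatrix ℝ) u i * P i u =
      ∑ j, ad G i j * (P u i ^ 2 - P u i * P u j) := by
    intro i
    rw [Matrix.mul_apply, Finset.sum_mul]
    have h1 : ∀ j, P u j * G.lapMatrix ℝ j i * P i u =
        (if j = i then P u i ^ 2 * dg G i else 0) - ad G i j * (P u i * P u j) := by
      intro j
      rw [lap_apply, ad_symm G j i, hs i u]
      by_cases hj : j = i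
      · subst hj; simp; ring
      · simp [hj]; ring
    rw [Finset.sum_congr rfl fun j _ => h1 j, Finset.sum_sub_distrib]
    simp only [Finset.sum_ite_eq', Finset.mem_univ, if_true, mul_sub, Finset.sum_sub_distrib]
    unfold dg
    rw [Finset.mul_sum]
    congr 1
    exact Finset.sum_congr rfl fun j _ => mul_comm _ _
  exact Finset.sum_congr rfl fun i _ => h i

theorem energy_nonneg {n : ℕ} (G : SimpleGraph (Fin n)) (x : Fin n → ℝ) :
    0 ≤ ∑ i, ∑ j, ad G i j * (x i ^ 2 - x i * x j) := by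
  have h : ∑ i, ∑ j, ad G i j * (x i ^ 2 - x i * x j) =
      (∑ i, ∑ j, ad G i j * (x i - x j) ^ 2) / 2 := by
    have h1 : ∑ i, ∑ j, ad G i j * (x i ^ 2 - x i * x j) =
        ∑ i, ∑ j, ad G i j * (x j ^ 2 - x i * x j) := by
      rw [Finset.sum_comm]
      refine Finset.sum_congr rfl fun i _ => Finset.sum_congr rfl fun j _ => ?_
      rw [ad_symm]; ring
    have h2 : ∑ i, ∑ j, ad G i j * (x i - x j) ^ 2 =
        ∑ i, ∑ j, ad G i j * (x i ^ 2 - x i * x j) +
        ∑ i, ∑ j, ad G i j * (x j ^ 2 - x i * x j) := by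
      rw [← Finset.sum_add_distrib]
      refine Finset.sum_congr rfl fun i _ => ?_
      rw [← Finset.sum_add_distrib]
      exact Finset.sum_congr rfl fun j _ => by ring
    rw [h2, ← h1]; ring
  rw [h]
  apply div_nonneg _ (by norm_num)
  exact Finset.sum_nonneg fun i _ => Finset.sum_nonneg fun j _ =>
    mul_nonneg (ad_nonneg G i j) (sq_nonneg _)

end Pool.Agent.H626.LE
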