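import Pool.Agent.H626.LE.Basic

/-!
Comparison of an extremal graph with the graph plus one edge, and with the graph in which one
vertex is joined to all others.
-/

set_option autoImplicit false

open Finset Matrix

namespace Pool.Agent.H626.LE

/-- the data attached to an extremal graph -/
structure Sys {n : ℕ} (G : SimpleGraph (Fin n)) (P : Matrix (Fin n) (Fin n) ℝ)
    (al s m p : ℝ) : Prop where
  transp : Pᵀ = P
  idem : P * P = P
  tr : P.trace = p
  hal : al * n = 2 * p
  hs : ∑ i, ∑ j, ad G i j * (P i i - P i j) = s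
  hdiag : ∀ u, ∑ i, ∑ j, ad G i j * (P u i ^ 2 - P u i * P u j) =
    ∑ j, ad G u j * (P u u - P u j)
  hm : ∑ i, dg G i = 2 * m
  hmax : ∀ (G' : SimpleGraph (Fin n)) (Q : Matrix (Fin n) (Fin n) ℝ), G ≤ G' → Qᵀ = Q →
    Q * Q = Q → Q.trace = p →
    al * ((∑ i, dg G' i) / 2) - ∑ i, ∑ j, ad G' i j * (Q i i - Q i j) ≤ al * m - s

section

variable {n : ℕ} {G : SimpleGraph (Fin n)} {P : Matrix (Fin n) (Fin n) ℝ} {al s m p : ℝ}

theorem Sys.symm (h : Sys G P al s m p) (i j : Fin n) : P i j = P j i := by
  have := congrFun (congrFun h.transp i) j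
  rw [Matrix.transpose_apply] at this
  exact this.symm

theorem Sys.mul (h : Sys G P al s m p) (i j : Fin n) : ∑ l, P i l * P l j = P i j := by
  have := congrFun (congrFun h.idem i) j
  rwa [Matrix.mul_apply] at this

theorem Sys.sq (h : Sys G P al s m p) (u : Fin n) : ∑ l, P u l ^ 2 = P u u := by
  rw [← h.mul u u]
  exact Finset.sum_congr rfl fun l _ => by rw [h.symm l u]; ring

theorem Sys.diag_nonneg (h : Sys G P al s m p) (u : Fin n) : 0 ≤ P u u := by
  rw [← h.sq u]; exact Finset.sum_nonneg fun l _ => sq_nonneg _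

theorem Sys.sq_erase (h : Sys G P al s m p) (u : Fin n) :
    ∑ l ∈ univ.erase u, P u l ^ 2 = P u u * (1 - P u u) := by
  have h1 := h.sq u
  rw [← Finset.add_sum_erase _ _ (Finset.mem_univ u)] at h1
  linarith

theorem Sys.diag_le_one (h : Sys G P al s m p) (u : Fin n) : P u u ≤ 1 := by
  have h1 := h.sq_erase u
  have h2 : 0 ≤ ∑ l ∈ univ.erase u, P u l ^ 2 := Finset.sum_nonneg fun l _ => sq_nonneg _
  have h3 := h.diag_nonneg u
  by_contra hc
  push Not at hc
  nlinarith

theorem Sys.w_eq (h : Sys G P al s m p) (u v : Fin n) :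
    P u u + P v v - 2 * P u v = ∑ l, (P u l - P v l) ^ 2 := by
  have h1 := h.sq u
  have h2 := h.sq v
  have h3 := h.mul u v
  have h4 : ∑ l, (P u l - P v l) ^ 2 =
      ∑ l, P u l ^ 2 + ∑ l, P v l ^ 2 - 2 * ∑ l, P u l * P l v := by
    rw [Finset.mul_sum, ← Finset.sum_add_distrib, ← Finset.sum_sub_distrib]
    exact Finset.sum_congr rfl fun l _ => by rw [h.symm l v]; ring
  rw [h4, h1, h2, h3]

theorem Sys.w_nonneg (h : Sys G P al s m p) (u v : Fin n) :
    0 ≤ P u u + P v v - 2 * P u v := by
  rw [h.w_eq]; exact Finset.sum_nonneg fun l _ => sq_nonneg _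

/-- `P u u + P v v - 2 P u v ≤ 2 (P u u + P v v)` -/
theorem Sys.w_le (h : Sys G P al s m p) (u v : Fin n) :
    P u u + P v v - 2 * P u v ≤ 2 * (P u u + P v v) := by
  have h1 := h.sq u
  have h2 := h.sq v
  have h3 := h.mul u v
  have h4 : 0 ≤ ∑ l, (P u l + P v l) ^ 2 := Finset.sum_nonneg fun l _ => sq_nonneg _
  have h5 : ∑ l, (P u l + P v l) ^ 2 =
      ∑ l, P u l ^ 2 + ∑ l, P v l ^ 2 + 2 * ∑ l, P u l * P l v := by
    rw [Finset.mul_sum, ← Finset.sum_add_distrib, ← Finset.sum_add_distrib]
    exact Finset.sum_congr rfl fun l _ => by rw [h.symm l v]; ring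
  rw [h5, h1, h2, h3] at h4
  linarith

/-- adding an edge -/
theorem Sys.nonadj (h : Sys G P al s m p) {u v : Fin n} (huv : u ≠ v) (hn : ¬ G.Adj u v) :
    al ≤ P u u + P v v - 2 * P u v := by
  classical
  obtain ⟨G', hG'⟩ : ∃ G', G' = G ⊔ SimpleGraph.edge u v := ⟨_, rfl⟩
  have hadj : ∀ i j, G'.Adj i j ↔ G.Adj i j ∨ ((i = u ∧ j = v) ∨ (i = v ∧ j = u)) := by
    intro i j
    rw [hG', SimpleGraph.sup_adj, SimpleGraph.edge_adj]
    constructor
    · rintro (h1 | ⟨h1, h2⟩)
      · exact Or.inl h1
      · right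
        exact h1
    · rintro (h1 | h1)
      · exact Or.inl h1
      · right
        rcases h1 with ⟨a, b⟩ | ⟨a, b⟩
        · subst a; subst b; exact ⟨Or.inl ⟨rfl, rfl⟩, huv⟩
        · subst a; subst b; exact ⟨Or.inr ⟨rfl, rfl⟩, huv.symm⟩
  have hle : G ≤ G' := by rw [hG']; exact le_sup_left
  have had : ∀ i j, ad G' i j = ad G i j + ((if i = u then (if j = v then 1 else 0) else 0) +
      (if i = v then (if j = u then 1 else 0) else 0)) := by
    intro i j
    by_cases h1 : i = u ∧ j = v
    · obtain ⟨rfl, rfl⟩ := h1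
      rw [ad_of_adj ((hadj _ _).2 (Or.inr (Or.inl ⟨rfl, rfl⟩))), ad_of_not hn]
      simp [huv]
    · by_cases h2 : i = v ∧ j = u
      · obtain ⟨rfl, rfl⟩ := h2
        rw [ad_of_adj ((hadj _ _).2 (Or.inr (Or.inr ⟨rfl, rfl⟩))),
          ad_of_not fun h' => hn h'.symm]
        simp [huv.symm]
      · have h3 : (if i = u then (if j = v then (1 : ℝ) else 0) else 0) = 0 := by
          by_cases a : i = u
          · have b : j ≠ v := fun b => h1 ⟨a, b⟩
            simp [b]
          · simp [a]
        have h4 : (if i = v then (if j = u then (1 : ℝ) else 0) else 0) = 0 := by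
          by_cases a : i = v
          · have b : j ≠ u := fun b => h2 ⟨a, b⟩
            simp [b]
          · simp [a]
        rw [h3, h4]
        by_cases h5 : G.Adj i j
        · rw [ad_of_adj h5, ad_of_adj ((hadj _ _).2 (Or.inl h5))]; norm_num
        · rw [ad_of_not h5, ad_of_not]
          · norm_num
          · rw [hadj]
            rintro (h6 | h6 | h6)
            · exact h5 h6
            · exact h1 h6
            · exact h2 h6
  have hsum : ∀ X : Fin n → Fin n → ℝ, ∑ i, ∑ j, ad G' i j * X i j =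
      ∑ i, ∑ j, ad G i j * X i j + (X u v + X v u) := by
    intro X
    have h1 : ∀ i j, ad G' i j * X i j = ad G i j * X i j +
        ((if i = u then (if j = v then X i j else 0) else 0) +
        (if i = v then (if j = u then X i j else 0) else 0)) := by
      intro i j
      rw [had]
      split_ifs <;> ring
    simp only [h1, Finset.sum_add_distrib]
    congr 1
    congr 1
    · rw [Finset.sum_eq_single u]
      · simp
      · intro b _ hb; simp [hb]
      · simp
    · rw [Finset.sum_eq_single v]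
      · simp
      · intro b _ hb; simp [hb]
      · simp
  have hdgs : ∑ i, dg G' i = 2 * m + 2 := by
    have h1 := hsum fun _ _ => 1
    simp only [mul_one] at h1
    have h2 : ∑ i, dg G' i = ∑ i, ∑ j, ad G' i j := rfl
    have h3 : ∑ i, dg G i = ∑ i, ∑ j, ad G i j := rfl
    rw [h2, h1, ← h3, h.hm]; norm_num
  have hmx := h.hmax G' P hle h.transp h.idem h.tr
  rw [hdgs, hsum, h.hs] at hmx
  have := h.symm u v
  linarith

/-- joining a vertex to all others -/
theorem Sys.dom (h : Sys G P al s m p) (u : Fin n) :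
    (1 - P u u) * (p - al * (1 + dg G u)) ≤ ∑ j, ad G u j * P u j := by
  classical
  rcases eq_or_lt_of_le (h.diag_le_one u) with h1 | h1
  · -- `P u u = 1`
    have h2 := h.sq_erase u
    rw [h1] at h2
    have h3 : ∀ j ∈ univ.erase u, P u j ^ 2 = 0 :=
      (Finset.sum_eq_zero_iff_of_nonneg fun l _ => sq_nonneg _).1 (by linarith)
    have h4 : ∑ j, ad G u j * P u j = 0 := by
      apply Finset.sum_eq_zero
      intro j _
      by_cases hj : j = u
      · rw [hj, ad_self, zero_mul]
      · have := h3 j (Finset.mem_erase.2 ⟨hj, Finset.mem_univ _⟩)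
        rw [pow_eq_zero_iff (by norm_num)] at this
        rw [this, mul_zero]
    rw [h4, h1]; simp
  obtain ⟨c, hc⟩ : ∃ c, c = 1 - P u u := ⟨_, rfl⟩
  have hc0 : 0 < c := by rw [hc]; linarith
  have hcne : c ≠ 0 := hc0.ne'
  obtain ⟨G', hG'⟩ : ∃ G' : SimpleGraph (Fin n), G' = G ⊔
    SimpleGraph.mk (fun i j => i ≠ j ∧ (i = u ∨ j = u)) ⟨fun i j h => ⟨h.1.symm, h.2.symm⟩⟩
      ⟨fun _ h => h.1 rfl⟩ := ⟨_, rfl⟩
  have hadj : ∀ i j, G'.Adj i j ↔ G.Adj i j ∨ (i ≠ j ∧ (i = u ∨ j = u)) := by
    intro i j; rw [hG']; rfl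
  have hle : G ≤ G' := by rw [hG']; exact le_sup_left
  have had_u : ∀ j, j ≠ u → ad G' u j = 1 := fun j hj =>
    ad_of_adj ((hadj _ _).2 (Or.inr ⟨hj.symm, Or.inl rfl⟩))
  have had_o : ∀ i j, i ≠ u → j ≠ u → ad G' i j = ad G i j := by
    intro i j hi hj
    by_cases h5 : G.Adj i j
    · rw [ad_of_adj h5, ad_of_adj ((hadj _ _).2 (Or.inl h5))]
    · rw [ad_of_not h5, ad_of_not]
      rw [hadj]
      rintro (h6 | ⟨-, h6 | h6⟩)
      · exact h5 h6
      · exact hi h6
      · exact hj h6
  -- the test projection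
  obtain ⟨F, hF⟩ : ∃ F : Fin n → Fin n → ℝ, F = fun i j => P i j + P u i * P u j / c := ⟨_, rfl⟩
  obtain ⟨Q, hQ⟩ : ∃ Q : Matrix (Fin n) (Fin n) ℝ,
    Q = Matrix.of fun i j => if i = u ∨ j = u then 0 else F i j := ⟨_, rfl⟩
  have hQo : ∀ i j, i ≠ u → j ≠ u → Q i j = F i j := by
    intro i j hi hj; rw [hQ]; simp [hi, hj]
  have hQu : ∀ j, Q u j = 0 := by intro j; rw [hQ]; simp
  have hQu' : ∀ j, Q j u = 0 := by intro j; rw [hQ]; simp
  have hQT : Qᵀ = Q := by
    ext i j
    rw [Matrix.transpose_apply]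
    by_cases hi : i = u
    · rw [hi, hQu, hQu']
    · by_cases hj : j = u
      · rw [hj, hQu, hQu']
      · rw [hQo i j hi hj, hQo j i hj hi, hF]
        simp only
        rw [h.symm j i]; ring
  have hx : ∀ i, ∑ l, P i l * P u l = P u i := by
    intro i
    rw [h.symm u i, ← h.mul i u]
    exact Finset.sum_congr rfl fun l _ => by rw [h.symm l u]
  have hQQ : Q * Q = Q := by
    ext i j
    by_cases hi : i = u
    · rw [Matrix.mul_apply, hi, hQu]
      exact Finset.sum_eq_zero fun l _ => by rw [hQu, zero_mul]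
    by_cases hj : j = u
    · rw [Matrix.mul_apply, hj, hQu']
      exact Finset.sum_eq_zero fun l _ => by rw [hQu', mul_zero]
    rw [Matrix.mul_apply, hQo i j hi hj]
    have e1 : ∑ l, Q i l * Q l j = ∑ l, F i l * F l j - F i u * F u j := by
      rw [← Finset.add_sum_erase _ _ (Finset.mem_univ u), hQu, mul_zero, zero_add,
        ← Finset.add_sum_erase (a := u) Finset.univ (fun l => F i l * F l j) (Finset.mem_univ u)]
      rw [add_sub_cancel_left]
      refine Finset.sum_congr rfl fun l hl => ?_
      have hl' : l ≠ u := (Finset.mem_erase.1 hl).1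
      rw [hQo i l hi hl', hQo l j hl' hj]
    rw [e1]
    have e2 : ∑ l, F i l * F l j = P i j + 2 * (P u i * P u j / c) +
        P u i * P u j * P u u / c ^ 2 := by
      have : ∀ l, F i l * F l j = P i l * P l j + (P u j / c) * (P i l * P u l) +
          (P u i / c) * (P j l * P u l) + (P u i * P u j / c ^ 2) * (P u l ^ 2) := by
        intro l
        rw [hF]
        simp only
        rw [h.symm l j]
        field_simp
        ring
      simp only [this, Finset.sum_add_distrib, ← Finset.mul_sum, hx, h.mul, h.sq]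
      field_simp
      ring
    rw [e2, hF]
    simp only
    have hpi : P u u = 1 - c := by rw [hc]; ring
    rw [h.symm i u, hpi]
    field_simp
    ring
  have hQtr : Q.trace = p := by
    rw [Matrix.trace]
    have e1 : ∑ i, Q.diag i = ∑ i, F i i - F u u := by
      rw [← Finset.add_sum_erase _ _ (Finset.mem_univ u),
        ← Finset.add_sum_erase (a := u) Finset.univ (fun l => F l l) (Finset.mem_univ u)]
      simp only [Matrix.diag_apply]
      rw [hQu, zero_add, add_sub_cancel_left]
      exact Finset.sum_congr rfl fun l hl => by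
        rw [hQo l l (Finset.mem_erase.1 hl).1 (Finset.mem_erase.1 hl).1]
    rw [e1]
    have e2 : ∑ i, F i i = p + P u u / c := by
      have : ∀ i, F i i = P i i + (1 / c) * P u i ^ 2 := by
        intro i; rw [hF]; simp only; ring
      simp only [this, Finset.sum_add_distrib, ← Finset.mul_sum, h.sq]
      have : ∑ i, P i i = p := by rw [← h.tr, Matrix.trace]; rfl
      rw [this]; ring
    rw [e2, hF]
    simp only
    have hpi : P u u = 1 - c := by rw [hc]; ring
    rw [hpi]
    field_simp
    ring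
  have hmx := h.hmax G' Q hle hQT hQQ hQtr
  -- the number of edges
  have hdg' : ∑ i, dg G' i = 2 * m + 2 * ((n : ℝ) - 1 - dg G u) := by
    have e1 : dg G' u = (n : ℝ) - 1 := by
      unfold dg
      rw [← Finset.add_sum_erase _ _ (Finset.mem_univ u), ad_self, zero_add,
        Finset.sum_congr rfl fun j hj => had_u j (Finset.mem_erase.1 hj).1]
      rw [Finset.sum_const, Finset.card_erase_of_mem (Finset.mem_univ u), Finset.card_univ,
        Fintype.card_fin, nsmul_eq_mul, mul_one, Nat.cast_sub]
      · simp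
      · have := u.2; omega
    have e2 : ∀ i, i ≠ u → dg G' i = 1 + dg G i - ad G i u := by
      intro i hi
      unfold dg
      rw [← Finset.add_sum_erase _ _ (Finset.mem_univ u),
        ← Finset.add_sum_erase (a := u) Finset.univ (fun l => ad G i l) (Finset.mem_univ u),
        ad_symm G' i u, had_u i hi,
        Finset.sum_congr rfl fun j hj => had_o i j hi (Finset.mem_erase.1 hj).1]
      ring
    rw [← Finset.add_sum_erase _ _ (Finset.mem_univ u), e1,
      Finset.sum_congr rfl fun i hi => e2 i (Finset.mem_erase.1 hi).1]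
    have e3 := h.hm
    rw [← Finset.add_sum_erase _ _ (Finset.mem_univ u)] at e3
    have e4 : dg G u = ∑ i ∈ univ.erase u, ad G i u := by
      conv_lhs => unfold dg
      rw [← Finset.add_sum_erase _ _ (Finset.mem_univ u), ad_self, zero_add]
      exact Finset.sum_congr rfl fun j _ => ad_symm _ _ _
    rw [Finset.sum_sub_distrib, Finset.sum_add_distrib, ← e4, Finset.sum_const,
      Finset.card_erase_of_mem (Finset.mem_univ u), Finset.card_univ,
      Fintype.card_fin, nsmul_eq_mul, mul_one, Nat.cast_sub (by have := u.2; omega)]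
    push_cast
    linarith
  -- the trace
  have hen : ∑ i, ∑ j, ad G' i j * (Q i i - Q i j) = p + s +
      (∑ j, ad G u j * (P u u - P u j)) / c -
      ∑ j, ad G u j * (P u u - P u j + (P u u ^ 2 - P u u * P u j) / c) -
      ∑ j, ad G u j * (P j j - P u j + (P u j ^ 2 - P u u * P u j) / c) := by
    have e1 : ∀ i, i ≠ u → ∑ j, ad G' i j * (Q i i - Q i j) =
        Q i i + ∑ j, ad G i j * (F i i - F i j) - ad G i u * (F i i - F i u) := by
      intro i hi
      rw [← Finset.add_sum_erase _ _ (Finset.mem_univ u),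
        ← Finset.add_sum_erase (a := u) Finset.univ (fun l => ad G i l * (F i i - F i l))
          (Finset.mem_univ u), ad_symm G' i u, had_u i hi, hQu']
      have e2 : ∑ x ∈ univ.erase u, ad G' i x * (Q i i - Q i x) =
          ∑ x ∈ univ.erase u, ad G i x * (F i i - F i x) :=
        Finset.sum_congr rfl fun j hj => by
          rw [had_o i j hi (Finset.mem_erase.1 hj).1, hQo i i hi hi,
            hQo i j hi (Finset.mem_erase.1 hj).1]
      rw [e2]; ring
    have e3 : ∑ j, ad G' u j * (Q u u - Q u j) = 0 :=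
      Finset.sum_eq_zero fun j _ => by rw [hQu, hQu]; ring
    rw [← Finset.add_sum_erase _ _ (Finset.mem_univ u), e3, zero_add,
      Finset.sum_congr rfl fun i hi => e1 i (Finset.mem_erase.1 hi).1,
      Finset.sum_sub_distrib, Finset.sum_add_distrib]
    have e4 : ∑ i ∈ univ.erase u, Q i i = p := by
      rw [← hQtr, Matrix.trace, ← Finset.add_sum_erase (a := u) Finset.univ (fun i => Q.diag i)
        (Finset.mem_univ u)]
      simp only [Matrix.diag_apply]
      rw [hQu, zero_add]
    have e5 : ∑ i ∈ univ.erase u, ∑ j, ad G i j * (F i i - F i j) =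
        ∑ i, ∑ j, ad G i j * (F i i - F i j) - ∑ j, ad G u j * (F u u - F u j) := by
      rw [← Finset.add_sum_erase (a := u) Finset.univ
        (fun i => ∑ j, ad G i j * (F i i - F i j)) (Finset.mem_univ u)]
      ring
    have e6 : ∑ i ∈ univ.erase u, ad G i u * (F i i - F i u) =
        ∑ i, ad G u i * (F i i - F i u) := by
      rw [← Finset.add_sum_erase (a := u) Finset.univ
        (fun i => ad G u i * (F i i - F i u)) (Finset.mem_univ u), ad_self, zero_mul, zero_add]
      exact Finset.sum_congr rfl fun i _ => by rw [ad_symm]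
    have e7 : ∑ i, ∑ j, ad G i j * (F i i - F i j) = s +
        (∑ j, ad G u j * (P u u - P u j)) / c := by
      rw [← h.hdiag u, ← h.hs, Finset.sum_div, ← Finset.sum_add_distrib]
      refine Finset.sum_congr rfl fun i _ => ?_
      rw [Finset.sum_div, ← Finset.sum_add_distrib]
      refine Finset.sum_congr rfl fun j _ => ?_
      rw [hF]; simp only; ring
    have e8 : ∑ j, ad G u j * (F u u - F u j) =
        ∑ j, ad G u j * (P u u - P u j + (P u u ^ 2 - P u u * P u j) / c) :=
      Finset.sum_congr rfl fun j _ => by rw [hF]; simp only; ring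
    have e9 : ∑ i, ad G u i * (F i i - F i u) =
        ∑ j, ad G u j * (P j j - P u j + (P u j ^ 2 - P u u * P u j) / c) :=
      Finset.sum_congr rfl fun j _ => by rw [hF]; simp only; rw [h.symm j u]; ring
    rw [e4, e5, e6, e7, e8, e9]
    ring
  rw [hdg', hen] at hmx
  have hpi : P u u = 1 - c := by rw [hc]; ring
  -- multiply by `c`
  have key : c * ((∑ j, ad G u j * (P u u - P u j)) / c -
      ∑ j, ad G u j * (P u u - P u j + (P u u ^ 2 - P u u * P u j) / c) -
      ∑ j, ad G u j * (P j j - P u j + (P u j ^ 2 - P u u * P u j) / c)) ≤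
      ∑ j, ad G u j * P u j := by
    have e1 : c * ((∑ j, ad G u j * (P u u - P u j)) / c -
      ∑ j, ad G u j * (P u u - P u j + (P u u ^ 2 - P u u * P u j) / c) -
      ∑ j, ad G u j * (P j j - P u j + (P u j ^ 2 - P u u * P u j) / c)) =
      ∑ j, ad G u j * (P u j - P u j ^ 2 - c * P j j) := by
      rw [mul_sub, mul_sub, mul_div_cancel₀ _ hcne, Finset.mul_sum, Finset.mul_sum,
        ← Finset.sum_sub_distrib, ← Finset.sum_sub_distrib]
      refine Finset.sum_congr rfl fun j _ => ?_
      rw [hpi]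
      field_simp
      ring
    rw [e1]
    refine Finset.sum_le_sum fun j _ => ?_
    apply mul_le_mul_of_nonneg_left _ (ad_nonneg _ _ _)
    have := h.diag_nonneg j
    nlinarith [sq_nonneg (P u j), mul_nonneg hc0.le this]
  have hal := h.hal
  rw [← hc]
  have k1 : al * ((2 * m + 2 * ((n : ℝ) - 1 - dg G u)) / 2) =
      al * m + (al * n - al * (1 + dg G u)) := by ring
  rw [k1, hal] at hmx
  have k2 : p - al * (1 + dg G u) ≤ (∑ j, ad G u j * (P u u - P u j)) / c -
      ∑ j, ad G u j * (P u u - P u j + (P u u ^ 2 - P u u * P u j) / c) -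
      ∑ j, ad G u j * (P j j - P u j + (P u j ^ 2 - P u u * P u j) / c) := by linarith
  exact (mul_le_mul_of_nonneg_left k2 hc0.le).trans key

end

end Pool.Agent.H626.LE
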