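import Pool.Agent.H626.LE.Account

/-!
The contradiction.
-/

set_option autoImplicit false

open Finset Matrix

namespace Pool.Agent.H626.LE

theorem ineqA {x h d C : ℝ} (hx1 : x ≤ 1) (hh : 0 ≤ h) (hd : 0 ≤ d)
    (h1 : (1 - x) * h ≤ C) (h2 : C ^ 2 ≤ d * (x * (1 - x))) : (1 - x) * h ^ 2 ≤ d * x := by
  rcases eq_or_lt_of_le hx1 with h3 | h3
  · rw [h3]; simpa using hd
  · have h4 : 0 < 1 - x := by linarith
    have h5 : 0 ≤ (1 - x) * h := mul_nonneg h4.le hh
    have h6 : ((1 - x) * h) ^ 2 ≤ d * (x * (1 - x)) := (pow_le_pow_left₀ h5 h1 2).trans h2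
    have h7 : (1 - x) * ((1 - x) * h ^ 2) ≤ (1 - x) * (d * x) := by nlinarith
    exact le_of_mul_le_mul_left h7 h4

section

variable {n : ℕ} {G : SimpleGraph (Fin n)} {P : Matrix (Fin n) (Fin n) ℝ} {al s m p : ℝ}

/-- vertices of small degree -/
theorem Sys.low (h : Sys G P al s m p) {N : ℝ} (hN : N = n) (hN2 : 200 ≤ N)
    (ha : al ≤ 4 / 5) (hp : N / 4 ≤ p) (u : Fin n) (hd1 : 1 ≤ dg G u)
    (hd : dg G u ≤ N / 12) :
    dg G u * (1 - 8 / N) ≤ dg G u * P u u - ∑ j, ad G u j * P u j := by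
  have hN0 : 0 < N := by linarith
  obtain ⟨x, hx⟩ : ∃ x, x = P u u := ⟨_, rfl⟩
  obtain ⟨d, hdd⟩ : ∃ d, d = dg G u := ⟨_, rfl⟩
  obtain ⟨C, hC⟩ : ∃ C, C = ∑ j, ad G u j * P u j := ⟨_, rfl⟩
  have hal := h.hal
  rw [← hN] at hal
  have h1 := h.dom u
  have h2 := h.c_sq u
  have hx1 := h.diag_le_one u
  have hx0 := h.diag_nonneg u
  rw [← hx, ← hdd, ← hC] at h1
  rw [← hx, ← hdd, ← hC] at h2
  rw [← hx] at hx0 hx1
  rw [← hdd] at hd hd1 ⊢
  rw [← hx, ← hC]
  have ha0 : 0 ≤ al := by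
    by_contra hc
    push Not at hc
    nlinarith
  have hh : N / 5 ≤ p - al * (1 + d) := by nlinarith
  obtain ⟨q, hq⟩ : ∃ q, q = p - al * (1 + d) := ⟨_, rfl⟩
  rw [← hq] at h1 hh
  have hq0 : 0 < q := by linarith
  have hA := ineqA hx1 hq0.le (by linarith) h1 h2
  -- `C ≤ 5 d / N`
  have hC1 : C * q ≤ d * x := by
    have e1 : (C * q) ^ 2 ≤ (d * x) ^ 2 := by
      have e2 : (C * q) ^ 2 ≤ d * (x * (1 - x)) * q ^ 2 := by
        rw [mul_pow]; exact mul_le_mul_of_nonneg_right h2 (sq_nonneg _)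
      have e3 : d * (x * (1 - x)) * q ^ 2 ≤ (d * x) ^ 2 := by
        have hdx : 0 ≤ d * x := mul_nonneg (by linarith) hx0
        have e4 := mul_le_mul_of_nonneg_left hA hdx
        calc d * (x * (1 - x)) * q ^ 2 = (d * x) * ((1 - x) * q ^ 2) := by ring
          _ ≤ (d * x) * (d * x) := e4
          _ = (d * x) ^ 2 := by ring
      linarith
    exact (abs_le_of_sq_le_sq' e1 (mul_nonneg (by linarith) hx0)).2
  have hC2 : C ≤ 5 * d / N := by
    rw [le_div_iff₀ hN0]
    by_cases hC0 : 0 ≤ C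
    · have e1 : C * (N / 5) ≤ C * q := mul_le_mul_of_nonneg_left hh hC0
      have e2 : d * x ≤ d := by nlinarith
      linarith
    · push Not at hC0
      nlinarith
  -- `1 - x ≤ 25 / (12 N)`
  have hx2 : (1 - x) ≤ 25 / (12 * N) := by
    rw [le_div_iff₀ (by positivity)]
    have e1 : (1 - x) * (N / 5) ^ 2 ≤ (1 - x) * q ^ 2 :=
      mul_le_mul_of_nonneg_left (pow_le_pow_left₀ (by positivity) hh 2) (by linarith)
    have e2 : (1 - x) * (N / 5) ^ 2 ≤ N / 12 := by
      have : d * x ≤ N / 12 := by nlinarith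
      linarith
    have e3 : (1 - x) * N * N ≤ 25 / 12 * N := by nlinarith
    have e4 : (1 - x) * N ≤ 25 / 12 := le_of_mul_le_mul_right e3 hN0
    linarith
  have e5 : d * (1 - x) ≤ d * (25 / (12 * N)) := mul_le_mul_of_nonneg_left hx2 (by linarith)
  have e6 : d * (1 - 8 / N) = d - d * (25 / (12 * N)) - 5 * d / N - (11 / 12) * (d / N) := by
    field_simp; ring
  rw [e6]
  have : 0 ≤ (11 / 12 : ℝ) * (d / N) := by positivity
  nlinarith

/-- vertices of large degree and large diagonal entry -/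
theorem Sys.high (h : Sys G P al s m p) {N : ℝ} (hN : N = n) (hN2 : 200 ≤ N)
    (ha : al ≤ 4 / 5) (hp : N / 4 ≤ p) (u : Fin n) (hx8 : 1 / 8 ≤ P u u)
    (hd : N / 12 < dg G u) :
    5 ≤ dg G u * P u u - ∑ j, ad G u j * P u j := by
  have hN0 : 0 < N := by linarith
  obtain ⟨x, hx⟩ : ∃ x, x = P u u := ⟨_, rfl⟩
  obtain ⟨d, hdd⟩ : ∃ d, d = dg G u := ⟨_, rfl⟩
  obtain ⟨C, hC⟩ : ∃ C, C = ∑ j, ad G u j * P u j := ⟨_, rfl⟩
  have hal := h.hal
  rw [← hN] at hal
  have h1 := h.dom u
  have h2 := h.c_sq u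
  have hx1 := h.diag_le_one u
  rw [← hx, ← hdd, ← hC] at h1
  rw [← hx, ← hdd, ← hC] at h2
  rw [← hx] at hx1 hx8
  rw [← hdd] at hd ⊢
  rw [← hx, ← hC]
  have hd0 : 0 < d := by linarith
  have hy : 8 ≤ d * x := by
    by_cases h3 : N / 3 ≤ d
    · nlinarith
    · push Not at h3
      have h4 : 1 / 2 ≤ x := by
        by_contra hc
        push Not at hc
        have ha0 : 0 ≤ al := by
          by_contra hc
          push Not at hc
          nlinarith
        have hh : N / 12 - 4 / 5 ≤ p - al * (1 + d) := by nlinarith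
        obtain ⟨q, hq⟩ : ∃ q, q = p - al * (1 + d) := ⟨_, rfl⟩
        rw [← hq] at h1 hh
        have hq0 : 0 < q := by linarith
        have hA := ineqA hx1 hq0.le hd0.le h1 h2
        have e1 : q ^ 2 ≥ (N / 12 - 4 / 5) ^ 2 := pow_le_pow_left₀ (by linarith) hh 2
        have e2 : (1 - x) * q ^ 2 ≥ (1 / 2) * q ^ 2 := by nlinarith [sq_nonneg q]
        have e3 : d * x ≤ d / 2 := by nlinarith
        nlinarith
      nlinarith
  have hC2 : C ^ 2 ≤ d * x := by
    have : d * (x * (1 - x)) ≤ d * x := by nlinarith [mul_nonneg hd0.le (sq_nonneg x)]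
    linarith
  by_cases h3 : C ≤ 3
  · linarith
  · push Not at h3
    nlinarith

theorem Sys.contra (h : Sys G P al s m p) (hG : G.Connected) {k : ℕ} (hkn : k + 1 ≤ n)
    (hp : p = (n : ℝ) - k) (hn : 200 ≤ n) (hk1 : 3 * n ≤ 5 * k) (hk2 : 4 * k ≤ 3 * n)
    (hm : m < (n : ℝ) - 1 + k * (k - 1) / 2)
    (hE : al * ((n : ℝ) - 1 + k * (k - 1) / 2) - (n - 1 - k) < al * m - s) : False := by
  classical
  obtain ⟨N, hN⟩ : ∃ N : ℝ, N = n := ⟨_, rfl⟩
  obtain ⟨K, hK⟩ : ∃ K : ℝ, K = k := ⟨_, rfl⟩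
  have hN2 : 200 ≤ N := by rw [hN]; exact_mod_cast hn
  have hN0 : 0 < N := by linarith
  have hK1 : 3 * N ≤ 5 * K := by rw [hN, hK]; exact_mod_cast hk1
  have hK2 : 4 * K ≤ 3 * N := by rw [hN, hK]; exact_mod_cast hk2
  have hKN : K + 1 ≤ N := by rw [hN, hK]; exact_mod_cast hkn
  have hal := h.hal
  rw [← hN] at hal
  rw [← hN, ← hK] at hp hm hE
  have ha1 : 1 / 2 ≤ al := by
    by_contra hc
    push Not at hc
    nlinarith
  have ha2 : al ≤ 4 / 5 := by
    by_contra hc
    push Not at hc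
    nlinarith
  have hp4 : N / 4 ≤ p := by linarith
  have hsl : s < N - 1 - K := by nlinarith
  -- the sets
  set W : Finset (Fin n) := univ.filter (fun u => P u u < 1 / 8) with hW
  have hcl : ∀ u ∈ W, ∀ v ∈ W, u ≠ v → G.Adj u v := by
    intro u hu v hv huv
    by_contra hc
    have h1 := h.nonadj huv hc
    have h2 := h.w_le u v
    have h3 := (Finset.mem_filter.1 hu).2
    have h4 := (Finset.mem_filter.1 hv).2
    linarith
  obtain ⟨g, hg⟩ : ∃ g : ℝ, g = W.card := ⟨_, rfl⟩
  have hg0 : 0 ≤ g := by rw [hg]; positivity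
  have hcq := h.clique W hcl
  rw [← hg, ← hN] at hcq
  have hgk : W.card ≤ k + 1 := by
    by_contra hc
    have h1 : k + 2 ≤ W.card := by omega
    have h2 : K + 2 ≤ g := by rw [hg, hK]; exact_mod_cast h1
    have h3 : g ≤ g * (p - (N - g) - 1) := by
      have : 1 ≤ p - (N - g) - 1 := by linarith
      nlinarith
    linarith
  have hgk' : g ≤ K + 1 := by rw [hg, hK]; exact_mod_cast hgk
  set H : Finset (Fin n) := Wᶜ.filter (fun u => N / 12 < dg G u) with hH
  set L : Finset (Fin n) := Wᶜ.filter (fun u => ¬ N / 12 < dg G u) with hL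
  have hcard : H.card + L.card = n - W.card := by
    rw [hH, hL, Finset.card_filter_add_card_filter_not, Finset.card_compl, Fintype.card_fin]
  have hWn : W.card ≤ n := by
    have := Finset.card_le_univ W
    rwa [Fintype.card_fin] at this
  have hcardR : (H.card : ℝ) + L.card = N - g := by
    have : ((H.card + L.card : ℕ) : ℝ) = ((n - W.card : ℕ) : ℝ) := by rw [hcard]
    rw [Nat.cast_sub hWn, ← hN, ← hg] at this
    push_cast at this
    exact this
  have hnotW : ∀ u ∈ Wᶜ, 1 / 8 ≤ P u u := by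
    intro u hu
    by_contra hc
    push Not at hc
    exact (Finset.mem_compl.1 hu) (Finset.mem_filter.2 ⟨Finset.mem_univ _, hc⟩)
  have hd1 : ∀ u, 1 ≤ dg G u := dg_ge_one (by omega) G hG
  -- lower bound for `s`
  have hs1 : 5 * (H.card : ℝ) + (1 - 8 / N) * ∑ u ∈ L, dg G u ≤ s := by
    rw [← h.e_sum, ← Finset.sum_add_sum_compl W]
    have e1 : 0 ≤ ∑ u ∈ W, (dg G u * P u u - ∑ j, ad G u j * P u j) :=
      Finset.sum_nonneg fun u _ => h.e_nonneg u
    have e2 : ∑ u ∈ Wᶜ, (dg G u * P u u - ∑ j, ad G u j * P u j) =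
        ∑ u ∈ H, (dg G u * P u u - ∑ j, ad G u j * P u j) +
        ∑ u ∈ L, (dg G u * P u u - ∑ j, ad G u j * P u j) := by
      rw [hH, hL, Finset.sum_filter_add_sum_filter_not]
    have e3 : ∑ u ∈ H, (5 : ℝ) ≤ ∑ u ∈ H, (dg G u * P u u - ∑ j, ad G u j * P u j) := by
      refine Finset.sum_le_sum fun u hu => ?_
      have hu' := Finset.mem_filter.1 hu
      exact h.high hN hN2 ha2 hp4 u (hnotW u hu'.1) hu'.2
    have e4 : ∑ u ∈ L, dg G u * (1 - 8 / N) ≤
        ∑ u ∈ L, (dg G u * P u u - ∑ j, ad G u j * P u j) := by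
      refine Finset.sum_le_sum fun u hu => ?_
      have hu' := Finset.mem_filter.1 hu
      exact h.low hN hN2 ha2 hp4 u (hd1 u) (not_lt.1 hu'.2)
    rw [Finset.sum_const, nsmul_eq_mul] at e3
    rw [← Finset.sum_mul] at e4
    rw [e2]
    linarith
  have h8 : 8 / N ≤ 1 / 25 := by
    rw [div_le_div_iff₀ hN0 (by norm_num)]; linarith
  have h8' : 0 ≤ 8 / N := by positivity
  have hLd : (L.card : ℝ) ≤ ∑ u ∈ L, dg G u := by
    have : ∑ u ∈ L, (1 : ℝ) ≤ ∑ u ∈ L, dg G u := Finset.sum_le_sum fun u _ => hd1 u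
    simpa using this
  by_cases hHe : H.card = 0
  · -- no bad vertices
    rw [hHe] at hs1 hcardR
    push_cast at hs1 hcardR
    have hHempty : H = ∅ := Finset.card_eq_zero.1 hHe
    by_cases hgeq : W.card = k + 1
    · -- `|W| = k + 1`
      have hWne : W.Nonempty := Finset.card_pos.1 (by omega)
      have h1 := edges_ge G hG W hWne hcl
      rw [h.hm, ← hg, ← hN] at h1
      have h2 : g = K + 1 := by rw [hg, hK, hgeq]; push_cast; ring
      rw [h2] at h1
      nlinarith
    · have hgk2 : W.card ≤ k := by omega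
      have hgK : g ≤ K := by rw [hg, hK]; exact_mod_cast hgk2
      have hD : 2 * m ≤ g * (g - 1) + 2 * ∑ u ∈ L, dg G u := by
        have hLW : L = Wᶜ := by
          have : H ∪ L = Wᶜ := by
            rw [hH, hL]; exact Finset.filter_union_filter_not_eq _ _
          rw [hHempty, Finset.empty_union] at this
          exact this
        rw [← h.hm, ← Finset.sum_add_sum_compl W, hLW]
        have e1 : ∑ i ∈ W, dg G i ≤ g * (g - 1) + ∑ u ∈ Wᶜ, dg G u := by
          have e2 : ∀ i ∈ W, dg G i ≤ (g - 1) + ∑ j ∈ Wᶜ, ad G i j := by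
            intro i hi
            unfold dg
            rw [← Finset.sum_add_sum_compl W]
            have e3 : ∑ j ∈ W, ad G i j ≤ g - 1 := by
              rw [← Finset.add_sum_erase _ _ hi, ad_self, zero_add]
              calc ∑ j ∈ W.erase i, ad G i j ≤ ∑ j ∈ W.erase i, (1 : ℝ) :=
                    Finset.sum_le_sum fun j _ => ad_le_one G i j
                _ = g - 1 := by
                    rw [Finset.sum_const, nsmul_eq_mul, mul_one, Finset.card_erase_of_mem hi,
                      Nat.cast_sub (Finset.card_pos.2 ⟨i, hi⟩), hg]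
                    simp
            linarith
          calc ∑ i ∈ W, dg G i ≤ ∑ i ∈ W, ((g - 1) + ∑ j ∈ Wᶜ, ad G i j) :=
                Finset.sum_le_sum e2
            _ = g * (g - 1) + ∑ i ∈ W, ∑ j ∈ Wᶜ, ad G i j := by
                rw [Finset.sum_add_distrib, Finset.sum_const, nsmul_eq_mul, hg]
            _ ≤ g * (g - 1) + ∑ u ∈ Wᶜ, dg G u := by
                have e4 : ∑ i ∈ W, ∑ j ∈ Wᶜ, ad G i j ≤ ∑ u ∈ Wᶜ, dg G u := by
                  rw [Finset.sum_comm]
                  refine Finset.sum_le_sum fun j _ => ?_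
                  unfold dg
                  calc ∑ i ∈ W, ad G i j = ∑ i ∈ W, ad G j i :=
                        Finset.sum_congr rfl fun i _ => ad_symm G i j
                    _ ≤ ∑ i, ad G j i :=
                        Finset.sum_le_sum_of_subset_of_nonneg (Finset.subset_univ _)
                          fun i _ _ => ad_nonneg G j i
                linarith
        linarith
      obtain ⟨D, hDD⟩ : ∃ D, D = ∑ u ∈ L, dg G u := ⟨_, rfl⟩
      rw [← hDD] at hD hs1
      have hD0 : 0 ≤ D := by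
        rw [hDD]; exact Finset.sum_nonneg fun u _ => le_trans zero_le_one (hd1 u)
      have h1 : al * m ≤ al * (g * (g - 1) / 2 + D) :=
        mul_le_mul_of_nonneg_left (by linarith) (by linarith)
      have h2 : al * D ≤ (1 - 8 / N) * D := mul_le_mul_of_nonneg_right (by linarith) hD0
      have h3 : g * (g - 1) ≤ K * (K - 1) := by
        have h4 : 0 ≤ (K - g) * (K + g - 1) := mul_nonneg (by linarith) (by linarith)
        linarith
      have h5 : al * (g * (g - 1) / 2) ≤ al * (K * (K - 1) / 2) :=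
        mul_le_mul_of_nonneg_left (by linarith) (by linarith)
      have h6 : al * m - s ≤ al * (K * (K - 1) / 2) := by
        rw [mul_add] at h1
        linarith
      have h7 : al * (N - 1) < N - 1 - K := by
        rw [mul_add] at hE
        linarith
      have h9 : al * N = 2 * (N - K) := by rw [hal, hp]
      linarith
  · -- bad vertices
    have hH1 : (1 : ℝ) ≤ H.card := by
      have : 1 ≤ H.card := by omega
      exact_mod_cast this
    have h1 : (1 - 8 / N) * (L.card : ℝ) ≤ (1 - 8 / N) * ∑ u ∈ L, dg G u :=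
      mul_le_mul_of_nonneg_left hLd (by linarith)
    have h2 : (L.card : ℝ) = N - g - H.card := by linarith
    have h3 : N - 1 - K - H.card ≤ (L.card : ℝ) := by linarith
    have h4 : (1 - 8 / N) * (N - 1 - K - H.card) ≤ (1 - 8 / N) * (L.card : ℝ) :=
      mul_le_mul_of_nonneg_left h3 (by linarith)
    have h5 : (8 / N) * (N - 1 - K) ≤ 16 / 5 := by
      have : (8 / N) * (N - 1 - K) = 8 * (N - 1 - K) / N := by ring
      rw [this, div_le_iff₀ hN0]
      linarith
    have h6 : 0 ≤ (8 / N) * H.card := by positivity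
    nlinarith

end

end Pool.Agent.H626.LE
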