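import Pool.Agent.H626.LE.Contra

/-!
Arithmetic and assembly.
-/

set_option autoImplicit false

open Finset Matrix

namespace Pool.Agent.H626.LE

open Pool.Agent.Q260.TE (lapEnergy)
open Pool.Agent.Q260.TE.Pine (g PA above)

/-- `n g(n,k)` as a polynomial -/
theorem g_mul {n k : ℕ} (hn : 0 < n) :
    (n : ℝ) * g n k = -(k : ℝ) ^ 3 + (n + 1) * k ^ 2 + (2 - 2 * n) * k + n ^ 2 - n := by
  have hn' : (n : ℝ) ≠ 0 := by positivity
  unfold g
  field_simp
  ring

theorem g_three {n : ℕ} (_hn : 3 ≤ n) : ∃ a : ℕ, 1 ≤ a ∧ ((n = 3 * a ∧ 2 * n / 3 = 2 * a) ∨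
    (n = 3 * a + 1 ∧ 2 * n / 3 = 2 * a) ∨ (n = 3 * a + 2 ∧ 2 * n / 3 = 2 * a + 1)) := by
  refine ⟨n / 3, by omega, ?_⟩
  omega

/-- the best pineapple -/
theorem g_max {n k : ℕ} (hn : 6 ≤ n) (hkn : k ≤ n) : g n k ≤ g n (2 * n / 3) := by
  have hn0 : 0 < n := by omega
  have hn' : (0 : ℝ) < n := by exact_mod_cast hn0
  refine le_of_mul_le_mul_left ?_ hn'
  rw [g_mul hn0, g_mul hn0]
  obtain ⟨a, ha, h⟩ := g_three (n := n) (by omega)
  have haR : (1 : ℝ) ≤ a := by exact_mod_cast ha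
  have hk0 : (0 : ℝ) ≤ k := Nat.cast_nonneg k
  rcases h with ⟨h1, h2⟩ | ⟨h1, h2⟩ | ⟨h1, h2⟩
  · rw [h2]
    have hkR : (k : ℝ) ≤ 3 * a := by rw [h1] at hkn; exact_mod_cast hkn
    have e : (n : ℝ) = 3 * a := by rw [h1]; push_cast; ring
    rw [e]
    push_cast
    rcases le_or_gt k (2 * a) with h3 | h3
    · have h3' : (k : ℝ) ≤ 2 * a := by exact_mod_cast h3
      rcases Nat.lt_or_ge k (2 * a) with h4 | h4
      · have h4' : (k : ℝ) ≤ 2 * a - 1 := by
          have : k + 1 ≤ 2 * a := h4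
          have : ((k + 1 : ℕ) : ℝ) ≤ ((2 * a : ℕ) : ℝ) := by exact_mod_cast this
          push_cast at this; linarith
        nlinarith [mul_nonneg (sub_nonneg.2 h3') (mul_nonneg hk0 (sub_nonneg.2 h4')),
          mul_nonneg (sub_nonneg.2 h3') (sq_nonneg ((a : ℝ) - 1)),
          mul_nonneg (sub_nonneg.2 h3') (sub_nonneg.2 h4'),
          mul_nonneg (mul_nonneg (sub_nonneg.2 h3') (sub_nonneg.2 h4')) (sub_nonneg.2 haR)]
      · have h5 : (k : ℝ) = 2 * a := by
          have : k = 2 * a := le_antisymm h3 h4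
          rw [this]; push_cast; ring
        rw [h5]
    · have h4' : (2 * a : ℝ) + 1 ≤ k := by
        have : ((2 * a + 1 : ℕ) : ℝ) ≤ k := by exact_mod_cast h3
        push_cast at this; linarith
      nlinarith [mul_nonneg (sub_nonneg.2 h4') (sub_nonneg.2 h4'),
        mul_nonneg (mul_nonneg (sub_nonneg.2 h4') (sub_nonneg.2 h4')) hk0,
        mul_nonneg (sub_nonneg.2 h4') hk0, mul_nonneg (sub_nonneg.2 h4') (sub_nonneg.2 haR)]
  · rw [h2]
    have hkR : (k : ℝ) ≤ 3 * a + 1 := by rw [h1] at hkn; exact_mod_cast hkn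
    have e : (n : ℝ) = 3 * a + 1 := by rw [h1]; push_cast; ring
    rw [e]
    push_cast
    rcases le_or_gt k (2 * a) with h3 | h3
    · have h3' : (k : ℝ) ≤ 2 * a := by exact_mod_cast h3
      rcases Nat.lt_or_ge k (2 * a) with h4 | h4
      · have h4' : (k : ℝ) ≤ 2 * a - 1 := by
          have : k + 1 ≤ 2 * a := h4
          have : ((k + 1 : ℕ) : ℝ) ≤ ((2 * a : ℕ) : ℝ) := by exact_mod_cast this
          push_cast at this; linarith
        nlinarith [mul_nonneg (sub_nonneg.2 h3') (mul_nonneg hk0 (sub_nonneg.2 h4')),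
          mul_nonneg (sub_nonneg.2 h3') (sq_nonneg ((a : ℝ) - 1)),
          mul_nonneg (sub_nonneg.2 h3') (sub_nonneg.2 h4'),
          mul_nonneg (mul_nonneg (sub_nonneg.2 h3') (sub_nonneg.2 h4')) (sub_nonneg.2 haR)]
      · have h5 : (k : ℝ) = 2 * a := by
          have : k = 2 * a := le_antisymm h3 h4
          rw [this]; push_cast; ring
        rw [h5]
    · have h4' : (2 * a : ℝ) + 1 ≤ k := by
        have : ((2 * a + 1 : ℕ) : ℝ) ≤ k := by exact_mod_cast h3
        push_cast at this; linarith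
      nlinarith [mul_nonneg (sub_nonneg.2 h4') (sub_nonneg.2 h4'),
        mul_nonneg (mul_nonneg (sub_nonneg.2 h4') (sub_nonneg.2 h4')) hk0,
        mul_nonneg (sub_nonneg.2 h4') hk0, mul_nonneg (sub_nonneg.2 h4') (sub_nonneg.2 haR)]
  · rw [h2]
    have hkR : (k : ℝ) ≤ 3 * a + 2 := by rw [h1] at hkn; exact_mod_cast hkn
    have e : (n : ℝ) = 3 * a + 2 := by rw [h1]; push_cast; ring
    rw [e]
    push_cast
    rcases le_or_gt k (2 * a + 1) with h3 | h3
    · have h3' : (k : ℝ) ≤ 2 * a + 1 := by exact_mod_cast h3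
      rcases Nat.lt_or_ge k (2 * a + 1) with h4 | h4
      · have h4' : (k : ℝ) ≤ 2 * a := by exact_mod_cast Nat.lt_succ_iff.1 h4
        nlinarith [mul_nonneg (sub_nonneg.2 h3') (mul_nonneg hk0 (sub_nonneg.2 h4')),
          mul_nonneg (sub_nonneg.2 h3') (sq_nonneg ((a : ℝ) - 1)),
          mul_nonneg (sub_nonneg.2 h3') (sub_nonneg.2 h4'),
          mul_nonneg (mul_nonneg (sub_nonneg.2 h3') (sub_nonneg.2 h4')) (sub_nonneg.2 haR)]
      · have h5 : (k : ℝ) = 2 * a + 1 := by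
          have : k = 2 * a + 1 := le_antisymm h3 h4
          rw [this]; push_cast; ring
        rw [h5]
    · have h4' : (2 * a : ℝ) + 2 ≤ k := by
        have : ((2 * a + 2 : ℕ) : ℝ) ≤ k := by exact_mod_cast h3
        push_cast at this; linarith
      nlinarith [mul_nonneg (sub_nonneg.2 h4') (sub_nonneg.2 h4'),
        mul_nonneg (mul_nonneg (sub_nonneg.2 h4') (sub_nonneg.2 h4')) hk0,
        mul_nonneg (sub_nonneg.2 h4') hk0, mul_nonneg (sub_nonneg.2 h4') (sub_nonneg.2 haR)]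

/-- `27 n g(n, ⌊2n/3⌋) ≥ 4 n³` -/
theorem g_lower {n : ℕ} (hn : 6 ≤ n) : 4 * (n : ℝ) ^ 3 ≤ 27 * ((n : ℝ) * g n (2 * n / 3)) := by
  have hn0 : 0 < n := by omega
  rw [g_mul hn0]
  obtain ⟨a, ha, h⟩ := g_three (n := n) (by omega)
  have haR : (1 : ℝ) ≤ a := by exact_mod_cast ha
  rcases h with ⟨h1, h2⟩ | ⟨h1, h2⟩ | ⟨h1, h2⟩
  · have e : (n : ℝ) = 3 * a := by rw [h1]; push_cast; ring
    rw [h2, e]; push_cast; nlinarith
  · have e : (n : ℝ) = 3 * a + 1 := by rw [h1]; push_cast; ring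
    rw [h2, e]; push_cast; nlinarith
  · have e : (n : ℝ) = 3 * a + 2 := by rw [h1]; push_cast; ring
    rw [h2, e]; push_cast; nlinarith

/-- the window -/
theorem window {n k : ℕ} (hn : 200 ≤ n) (hkn : k + 1 ≤ n)
    (h : 4 * (n : ℝ) ^ 3 < 27 * (((n : ℝ) - k) * k * (k + 1))) :
    3 * n ≤ 5 * k ∧ 4 * k ≤ 3 * n := by
  obtain ⟨N, hN⟩ : ∃ N : ℝ, N = n := ⟨_, rfl⟩
  obtain ⟨K, hK⟩ : ∃ K : ℝ, K = k := ⟨_, rfl⟩
  have hN2 : 200 ≤ N := by rw [hN]; exact_mod_cast hn
  have hK0 : 0 ≤ K := by rw [hK]; positivity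
  have hKN : K + 1 ≤ N := by rw [hN, hK]; exact_mod_cast hkn
  rw [← hN, ← hK] at h
  have h1 : (N - K) * K ≤ N ^ 2 / 4 := by nlinarith [sq_nonneg (N - 2 * K)]
  constructor
  · by_contra hc
    push Not at hc
    have hc' : 5 * K ≤ 3 * N := by rw [hN, hK]; exact_mod_cast hc.le
    have h2 : (N - K) * K ^ 2 ≤ 144 / 1000 * N ^ 3 := by
      have ht0 : 0 ≤ 3 / 5 * N - K := by linarith
      have ht1 : 3 / 5 * N - K ≤ 3 / 5 * N := by linarith
      nlinarith [mul_nonneg ht0 (mul_nonneg hK0 (by linarith : (0 : ℝ) ≤ N)),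
        mul_nonneg (mul_nonneg ht0 ht0) (by linarith : (0 : ℝ) ≤ N),
        mul_nonneg ht0 (sq_nonneg N), mul_nonneg (mul_nonneg ht0 ht0) hK0]
    have h3 : (N - K) * K * (K + 1) = (N - K) * K ^ 2 + (N - K) * K := by ring
    rw [h3] at h
    nlinarith [mul_nonneg (sq_nonneg N) (by linarith : (0 : ℝ) ≤ N - 200)]
  · by_contra hc
    push Not at hc
    have hc' : 3 * N ≤ 4 * K := by rw [hN, hK]; exact_mod_cast hc.le
    have h2 : (N - K) * K ^ 2 ≤ 9 / 64 * N ^ 3 := by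
      have ht0 : 0 ≤ K - 3 / 4 * N := by linarith
      have ht1 : 0 ≤ N - K := by linarith
      nlinarith [mul_nonneg ht0 (mul_nonneg hK0 (by linarith : (0 : ℝ) ≤ N)),
        mul_nonneg (mul_nonneg ht0 ht0) (by linarith : (0 : ℝ) ≤ N),
        mul_nonneg ht0 (sq_nonneg N), mul_nonneg (mul_nonneg ht0 ht0) hK0,
        mul_nonneg (mul_nonneg ht0 ht0) ht1]
    have h3 : (N - K) * K * (K + 1) = (N - K) * K ^ 2 + (N - K) * K := by ring
    rw [h3] at h
    nlinarith [mul_nonneg (sq_nonneg N) (by linarith : (0 : ℝ) ≤ N - 200)]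

theorem en_congr {n : ℕ} (G : SimpleGraph (Fin n)) (i1 i2 : DecidableRel G.Adj) :
    @lapEnergy n G i1 = @lapEnergy n G i2 := by
  rw [Subsingleton.elim i1 i2]

/-- the maximum of the energy over the connected graphs on `n` vertices is attained -/
theorem exists_maximizer {n : ℕ} (G0 : SimpleGraph (Fin n)) (i0 : DecidableRel G0.Adj)
    (h0 : G0.Connected) :
    ∃ (G : SimpleGraph (Fin n)) (i : DecidableRel G.Adj), G.Connected ∧
      @lapEnergy n G0 i0 ≤ @lapEnergy n G i ∧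
      ∀ (G' : SimpleGraph (Fin n)) (i' : DecidableRel G'.Adj), G'.Connected →
        @lapEnergy n G' i' ≤ @lapEnergy n G i := by
  have hne : Nonempty {G : SimpleGraph (Fin n) // G.Connected} := ⟨⟨G0, h0⟩⟩
  obtain ⟨x, hmax⟩ := Finite.exists_max
    (fun G : {G : SimpleGraph (Fin n) // G.Connected} =>
      @lapEnergy n G.1 (Classical.decRel G.1.Adj))
  refine ⟨x.1, Classical.decRel x.1.Adj, x.2, ?_, ?_⟩
  · rw [en_congr G0 i0 (Classical.decRel G0.Adj)]
    exact hmax ⟨G0, h0⟩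
  · intro G' i' hG'
    rw [en_congr G' i' (Classical.decRel G'.Adj)]
    exact hmax ⟨G', hG'⟩

/-- **Upper bound.** -/
theorem upper {n : ℕ} (hn : 200 ≤ n) (G0 : SimpleGraph (Fin n)) [DecidableRel G0.Adj]
    (h0 : G0.Connected) : lapEnergy G0 ≤ 2 * g n (2 * n / 3) := by
  classical
  by_contra hcon
  push Not at hcon
  obtain ⟨G, inst, hG, hG0, hmax⟩ := exists_maximizer G0 inferInstance h0
  have hE : 2 * g n (2 * n / 3) < lapEnergy G := lt_of_lt_of_le hcon hG0
  have hL : (G.lapMatrix ℝ).IsHermitian := G.isHermitian_lapMatrix (R := ℝ)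
  have hm0 : 0 < G.edgeFinset.card := by
    have := Pool.Agent.Q260.TE.card_le G hG
    omega
  obtain ⟨t, -, ht1, ht2, hte⟩ := Pool.Agent.Q260.TE.Pine.top G hL (by omega) hm0
  obtain ⟨k, hk⟩ : ∃ k, k = t.card := ⟨_, rfl⟩
  rw [← hk] at ht1 ht2 hte
  obtain ⟨M, hM⟩ : ∃ M : ℝ, M = (G.edgeFinset.card : ℝ) := ⟨_, rfl⟩
  obtain ⟨S, hS⟩ : ∃ S : ℝ, S = ∑ i ∈ t, hL.eigenvalues i := ⟨_, rfl⟩
  have hb := Pool.Agent.Q260.TE.brouwer_t G hL t
  rw [← hS, ← hk, ← hM] at hb
  rw [← hS, ← hM] at hte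
  have hSn : S ≤ k * n := by
    rw [hS]
    calc ∑ i ∈ t, hL.eigenvalues i ≤ ∑ i ∈ t, (n : ℝ) :=
          Finset.sum_le_sum fun i _ => Pool.Agent.Helper554.LE.eig_le G hL i
      _ = k * n := by rw [Finset.sum_const, nsmul_eq_mul, ← hk]
  have hn0 : (0 : ℝ) < n := by
    have : 0 < n := by omega
    exact_mod_cast this
  have hval : g n (2 * n / 3) < S - 2 * M / n * k := by linarith
  have h2k : n < 2 * k := by
    by_contra hc
    push Not at hc
    have h1 := Pool.Agent.Q260.TE.Pine.arith1 ht1 ht2 hc hSn hb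
    have h2 := g_max (n := n) (k := n - k) (by omega) (by omega)
    linarith
  have hgk := g_max (n := n) (k := k) (by omega) (by omega)
  have hMk : M < (n : ℝ) - 1 + k * (k - 1) / 2 := by
    by_contra hc
    push Not at hc
    have h1 := Pool.Agent.Q260.TE.Pine.arith2 ht1 ht2 h2k.le hb hc
    linarith
  -- the projection
  obtain ⟨P, p1, p2, p3, p4, p5⟩ := spec n (G.lapMatrix ℝ) hL tᶜ
  have htc : ((tᶜ.card : ℕ) : ℝ) = (n : ℝ) - k := by
    rw [Finset.card_compl, Fintype.card_fin, ← hk, Nat.cast_sub (by omega)]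
  rw [htc] at p3
  have hsum : ∑ i, hL.eigenvalues i = 2 * M := by
    have h3 : (G.lapMatrix ℝ).trace = ∑ i, hL.eigenvalues i := by
      have := hL.trace_eq_sum_eigenvalues
      simpa using this
    rw [← h3, Pool.Agent.Helper554.LE.trace_lap, hM]
  have hP4 : (P * G.lapMatrix ℝ).trace = 2 * M - S := by
    rw [p4, hS, ← hsum, ← Finset.sum_add_sum_compl t]
    ring
  obtain ⟨al, hal⟩ : ∃ al : ℝ, al = 2 * ((n : ℝ) - k) / n := ⟨_, rfl⟩
  have haln : al * n = 2 * ((n : ℝ) - k) := by rw [hal]; field_simp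
  have hEn : lapEnergy G / 2 = al * M - (2 * M - S) := by
    rw [hte, hal]; field_simp; ring
  have hsys : Sys G P al (2 * M - S) M ((n : ℝ) - k) := by
    refine ⟨p1, p2, p3, haln, ?_, ?_, ?_, ?_⟩
    · rw [← trace_mul_lap, hP4]
    · intro u
      rw [← plp_diag G P p1, ← mul_lap_diag]
      rw [Matrix.mul_assoc, ← p5, ← Matrix.mul_assoc, p2]
    · rw [sum_dg, hM]
    · intro G' Q hle q1 q2 q3
      have h1 := kf (by omega) G' Q q1 q2
      have h2 := hmax G' inferInstance (hG.mono hle)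
      rw [q3] at h1
      rw [← trace_mul_lap, sum_dg, ← hEn]
      have h3 : al * (2 * (G'.edgeFinset.card : ℝ) / 2) =
          2 * (G'.edgeFinset.card : ℝ) / n * ((n : ℝ) - k) := by
        rw [hal]; field_simp
      rw [h3]
      linarith
  -- the window
  have hs0 : 0 ≤ 2 * M - S := by
    rw [← hP4, p4]
    exact Finset.sum_nonneg fun i _ => Pool.Agent.Helper554.LE.eig_nonneg G hL i
  have hkR : (k : ℝ) + 1 ≤ n := by exact_mod_cast ht2
  have h2kR : (n : ℝ) < 2 * k := by exact_mod_cast h2k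
  have hal1 : al ≤ 1 := by
    by_contra hc
    push Not at hc
    nlinarith
  have hal0 : 0 ≤ al := by
    by_contra hc
    push Not at hc
    nlinarith
  have hwin : 4 * (n : ℝ) ^ 3 < 27 * (((n : ℝ) - k) * k * (k + 1)) := by
    have h1 := g_lower (n := n) (by omega)
    have h2 : al * M - (2 * M - S) ≤ al * (k * (k + 1) / 2) := by
      have h3 : M - k * (k + 1) / 2 ≤ 2 * M - S := by linarith
      by_cases h4 : M ≤ k * (k + 1) / 2
      · have := mul_le_mul_of_nonneg_left h4 hal0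
        linarith
      · push Not at h4
        have h5 : 0 ≤ (1 - al) * (M - k * (k + 1) / 2) :=
          mul_nonneg (by linarith) (by linarith)
        nlinarith
    have h3 : g n (2 * n / 3) < al * (k * (k + 1) / 2) := by linarith
    have h4 : (n : ℝ) * g n (2 * n / 3) < n * (al * (k * (k + 1) / 2)) :=
      mul_lt_mul_of_pos_left h3 hn0
    have h5 : (n : ℝ) * (al * (k * (k + 1) / 2)) = ((n : ℝ) - k) * k * (k + 1) := by
      have : (n : ℝ) * (al * (k * (k + 1) / 2)) = (al * n) * (k * (k + 1) / 2) := by ring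
      rw [this, haln]; ring
    rw [h5] at h4
    linarith
  obtain ⟨w1, w2⟩ := window hn ht2 hwin
  refine hsys.contra hG ht2 rfl hn w1 w2 hMk ?_
  have h1 : al * ((n : ℝ) - 1 + k * (k - 1) / 2) - (n - 1 - k) = g n k := by
    unfold g
    rw [hal]
    field_simp
    ring
  rw [h1, ← hEn]
  linarith

/-- **Lower bound.** -/
theorem lower {n : ℕ} (hn : 6 ≤ n) :
    2 * g n (2 * n / 3) ≤ lapEnergy (PA n (2 * n / 3 + 1)) :=
  Pool.Agent.Q260.TE.Pine.pa_lower Pool.Agent.Q260.TE.TaskPOne.main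
    Pool.Agent.Q260.TE.TaskPTwo.main Pool.Agent.Q260.TE.TaskPMul.main
    Pool.Agent.Q260.TE.TaskLapOne.main Pool.Agent.Q260.TE.TaskLapTwo.main
    Pool.Agent.Q260.TE.TaskDeg.main (by omega) (by omega)

theorem pa_connected {n p : ℕ} (hn : 1 ≤ n) : (PA n p).Connected :=
  Pool.Agent.Q260.TE.conn_of_dom (u := ⟨0, hn⟩) fun _ hv => ⟨hv.symm, Or.inl rfl⟩

end Pool.Agent.H626.LE
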